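import Pool.Agent.CYL.A.RS
import Pool.Agent.CYG.Def

/-!
# CYL, part A: signs, and the concrete labels

On the states counted by `Ome` all empty labels are sites, and the number of empty labels has
the parity of the number of labels (`Equiv.Perm.card_fixedPoints_modEq` with `p = 2`).
-/

namespace Pool.Agent.CYL

open Pool.Agent.BEX Complex

theorem lns_nodup (L l : ℕ) : (lns L l).Nodup := by
  unfold lns
  exact (List.nodup_finRange L).map Sum.inl_injective

theorem lns_prod {L l : ℕ} (g : ℂ → ℂ) (U : Fin L → ℂ) :
    ((lns L l).map (fun i => g (rap U i))).prod = ∏ i, g (U i) := by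
  unfold lns
  rw [List.map_map, ← List.ofFn_eq_map, List.prod_ofFn]
  rfl

theorem mem_lns {L l : ℕ} (x : Lb L l) : x ∈ lns L l ↔ ∃ i, x = Sum.inl i := by
  unfold lns
  rw [List.mem_map]
  constructor
  · rintro ⟨i, _, rfl⟩; exact ⟨i, rfl⟩
  · rintro ⟨i, rfl⟩; exact ⟨i, List.mem_finRange i, rfl⟩

/-- `Ome` for the concrete labels -/
theorem Ome_lns {L l : ℕ} (al : Fin L → ℂ) (m : Sts L l) : Ome (lns L l) (rap al) m = Oa al m := by
  have h1 : (∀ j, j ∉ lns L l → m j ∈ lns L l) ↔ Chi m := by
    constructor
    · intro h j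
      have h2 := h (Sum.inr j) (by rw [mem_lns]; rintro ⟨i, hi⟩; simp at hi)
      rwa [mem_lns] at h2
    · intro h x hx
      rcases x with i | j
      · exact absurd ((mem_lns _).2 ⟨i, rfl⟩) hx
      · rw [mem_lns]; exact h j
  have h2 : ((lns L l).map (fun i => if m i = i then rap al i else bb)).prod =
      ∏ i : Fin L, (if m (Sum.inl i) = Sum.inl i then al i else bb) := by
    unfold lns
    rw [List.map_map, ← List.ofFn_eq_map, List.prod_ofFn]
    rfl
  unfold Ome Oa
  by_cases h : Chi m
  · rw [if_pos (h1.2 h), if_pos h, h2]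
  · rw [if_neg (fun h' => h (h1.1 h')), if_neg h]

theorem Ome_neg {ι : Type*} [DecidableEq ι] [Fintype ι] (l : List ι) (hn : l.Nodup) (α : ι → ℂ) (m : St ι) :
    Ome l (fun i => - α i) m = (-1) ^ Fintype.card ι * Ome l α m := by
  unfold Ome
  by_cases h : ∀ j, j ∉ l → m j ∈ l
  · rw [if_pos h, if_pos h]
    have h1 : (l.map (fun i => if m i = i then - α i else bb)).prod =
        (l.map (fun i => if m i = i then (-1 : ℂ) else 1)).prod * (l.map (fun i => if m i = i then α i else bb)).prod := by
      rw [← List.prod_map_mul]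
      congr 1
      refine List.map_congr_left fun i _ => ?_
      split_ifs <;> ring
    rw [h1]
    congr 1
    have h2 : (l.map (fun i => if m i = i then (-1 : ℂ) else 1)).prod = ∏ i ∈ l.toFinset, (if m i = i then (-1 : ℂ) else 1) :=
      (List.prod_toFinset _ hn).symm
    have h3 : ∏ i ∈ l.toFinset, (if m i = i then (-1 : ℂ) else 1) = ∏ i, (if m i = i then (-1 : ℂ) else 1) := by
      apply Finset.prod_subset (Finset.subset_univ _)
      intro x _ hx
      rw [List.mem_toFinset] at hx
      rw [if_neg]
      intro h4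
      exact hx (h4 ▸ h x hx)
    rw [h2, h3, Finset.prod_ite, Finset.prod_const, Finset.prod_const_one, mul_one]
    -- parity
    let σ : Function.End ι := m.1
    have h5 : σ ^ 2 ^ 1 = 1 := by
      funext x
      show (σ ^ 2) x = x
      rw [pow_two]
      exact m.2 x
    have h6 := Equiv.Perm.card_fixedPoints_modEq (p := 2) (n := 1) h5
    have h7 : (Finset.univ.filter (fun i => m i = i)).card = Fintype.card (Function.fixedPoints σ) := by
      rw [← Fintype.card_subtype]
      exact Fintype.card_congr (Equiv.refl _)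
    rw [h7]
    rcases Nat.even_or_odd (Fintype.card ι) with h8 | h8
    · have h9 : Even (Fintype.card (Function.fixedPoints σ)) := by
        rw [Nat.even_iff] at h8 ⊢
        exact (show _ % 2 = _ % 2 from h6).symm.trans h8
      rw [h8.neg_one_pow, h9.neg_one_pow]
    · have h9 : Odd (Fintype.card (Function.fixedPoints σ)) := by
        rw [Nat.odd_iff] at h8 ⊢
        exact (show _ % 2 = _ % 2 from h6).symm.trans h8
      rw [h8.neg_one_pow, h9.neg_one_pow]
  · rw [if_neg h, if_neg h, mul_zero]

end Pool.Agent.CYL
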