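import Pool.Agent.CYL.A.Inter
import Pool.Agent.CYL.A.Left
import Pool.Agent.CYL.A.Right
import Pool.Agent.CYL.A.Red
import Pool.Agent.CYG.A.Sign
import Pool.Agent.BEX.AFix1

/-!
# CYL, part A: the covector identity (**) (notes 3171, 3178 of MP_8c6f77_pr)

`star_generic`: any labels, `l` the list of the sites; `star_star`: `StarStar L l` for all `L`, `l`.
-/

namespace Pool.Agent.CYL

open Pool.Agent.BEX Complex RS Finset

section generic

variable {ι : Type*} [DecidableEq ι] [Fintype ι]

theorem emb_ext0_ax (m : St ι) : emb (ext0 m) ax = some ax := rfl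

theorem emb_ext0_ax' (m : St ι) : emb (ext0 m) ax' = some ax' := rfl

theorem emb_ext0_lb (m : St ι) (i : ι) : emb (ext0 m) (BEX.lb i) = some (BEX.lb (m i)) := rfl

theorem ext1_apply (m : St ι) (x : Option (Option ι)) :
    (ext1 m) x = if x = ax then ax' else if x = ax' then ax else ext0 m x := by
  unfold ext1 St.jn
  have h : (ext0 m) ax = ax ∧ (ext0 m) ax' = ax' := ⟨rfl, rfl⟩
  rw [dif_pos h]
  rfl

theorem emb_ext1_ax (m : St ι) : emb (ext1 m) ax = some ax' := by
  rw [emb_apply, ext1_apply, if_pos rfl]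

theorem emb_ext1_ax' (m : St ι) : emb (ext1 m) ax' = some ax := by
  rw [emb_apply, ext1_apply, if_neg (by simp [ax, ax']), if_pos rfl]

theorem emb_ext1_lb (m : St ι) (i : ι) : emb (ext1 m) (BEX.lb i) = some (BEX.lb (m i)) := by
  rw [emb_apply, ext1_apply, if_neg (by simp [ax, BEX.lb]), if_neg (by simp [ax', BEX.lb])]
  rfl

theorem cases_lab {p : Option (Option ι) → Prop} (h1 : p ax) (h2 : p ax') (h3 : ∀ i, p (BEX.lb i)) :
    ∀ x, p x := by
  intro x
  rcases x with _ | _ | i
  · exact h1
  · exact h2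
  · exact h3 i

theorem kil_ext1 (m : St ι) : (emb (ext1 m)).kil ax = (emb (ext0 m)).ctl ax' := by
  apply RS.ext'
  apply cases_lab
  · rw [kil_apply, if_pos rfl, ctl_apply, if_neg (by simp [ax, ax']), if_neg (by rw [emb_ext0_ax]; simp [ax, ax']),
      emb_ext0_ax]
  · rw [kil_apply, if_neg (by simp [ax, ax']), if_pos (emb_ext1_ax' m), ctl_apply, if_pos rfl]
  · intro i
    rw [kil_apply, if_neg (by simp [ax, BEX.lb]), if_neg (by rw [emb_ext1_lb]; simp [ax, BEX.lb]), ctl_apply,
      if_neg (by simp [ax', BEX.lb]), if_neg (by rw [emb_ext0_lb]; simp [ax', BEX.lb]), emb_ext1_lb, emb_ext0_lb]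

theorem kil'_ext1 (m : St ι) : (emb (ext1 m)).kil ax' = (emb (ext0 m)).ctl ax := by
  apply RS.ext'
  apply cases_lab
  · rw [kil_apply, if_neg (by simp [ax, ax']), if_pos (emb_ext1_ax m), ctl_apply, if_pos rfl]
  · rw [kil_apply, if_pos rfl, ctl_apply, if_neg (by simp [ax, ax']), if_neg (by rw [emb_ext0_ax']; simp [ax, ax']),
      emb_ext0_ax']
  · intro i
    rw [kil_apply, if_neg (by simp [ax', BEX.lb]), if_neg (by rw [emb_ext1_lb]; simp [ax', BEX.lb]), ctl_apply,
      if_neg (by simp [ax, BEX.lb]), if_neg (by rw [emb_ext0_lb]; simp [ax, BEX.lb]), emb_ext1_lb, emb_ext0_lb]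

theorem lb_iff {i j : ι} : BEX.lb i = BEX.lb j ↔ i = j := by simp [BEX.lb]

theorem chT_ext0 (l : List ι) (T : List (Option (Option ι))) (hT : ∀ i : ι, BEX.lb i ∈ T ↔ i ∈ l) (m : St ι)
    (α : ι → ℂ) :
    chT (fun j => j ∉ l) T (emb (ext0 m)) * wt l α (emb (ext0 m)) = Ome l α m := by
  have h1 : (∀ j, j ∉ l → emb (ext0 m) (BEX.lb j) = none ∨ ∃ y ∈ T, emb (ext0 m) (BEX.lb j) = some y) ↔
      ∀ j, j ∉ l → m j ∈ l := by
    refine forall_congr' fun j => forall_congr' fun _ => ?_
    rw [emb_ext0_lb, ← hT]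
    constructor
    · rintro (h | ⟨y, hy, h⟩)
      · simp at h
      · rwa [Option.some.inj h]
    · intro h
      exact Or.inr ⟨_, h, rfl⟩
  have h2 : wt l α (emb (ext0 m)) = (l.map (fun i => if m i = i then α i else bb)).prod := by
    unfold wt
    congr 1
    refine List.map_congr_left fun i _ => ?_
    rw [emb_ext0_lb]
    simp only [Option.some.injEq, lb_iff]
  rw [h2]
  unfold chT Ome
  by_cases h3 : ∀ j, j ∉ l → m j ∈ l
  · rw [if_pos (h1.2 h3), if_pos h3, one_mul]
  · rw [if_neg (fun h => h3 (h1.1 h)), if_neg h3, zero_mul]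

/-- the covector identity, any labels -/
theorem star_generic (l : List ι) (hn : l.Nodup) (U : ι → ℂ) (u : ℂ) (m : St ι) :
    (l.map (fun i => sin (2 * lam - (u - U i)))).prod *
        Tt l (u + 2 * lam) U (Ome l (fun i => sin (lam + (u - U i)))) m -
      (l.map (fun i => sin (2 * lam + (u - U i)))).prod *
        Tt l (u + lam) U (Ome l (fun i => sin (lam - (u - U i)))) m =
    (l.map (fun i => sin (2 * lam - (u - U i)))).prod *
        ((l.map (fun i => sin (-(u - U i)) * sin (lam - (u - U i)))).prod *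
          Ome l (fun i => - sin (3 * lam + (u - U i))) m) -
      (l.map (fun i => sin (2 * lam + (u - U i)))).prod *
        ((l.map (fun i => sin (u - U i) * sin (lam + (u - U i)))).prod *
          Ome l (fun i => sin ((u - U i) - 3 * lam)) m) := by
  have hX : (fun i => u + 2 * lam - U i) = fun i => (u - U i) + 2 * lam := by funext i; ring
  have hX' : (fun i => u + lam - U i) = fun i => (u - U i) + lam := by funext i; ring
  set r : ι → ℂ := fun i => u - U i with hr
  set P : ι → Prop := fun j => j ∉ l with hP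
  have hl : ∀ j ∈ l, ¬ P j := fun j hj h => h hj
  set f0 := emb (ext0 m) with hf0
  set f1 := emb (ext1 m) with hf1
  have T1 := Tt_Ome l hn (u + 2 * lam) U (fun i => sin (lam + r i)) m
  have T2 := Tt_Ome l hn (u + lam) U (fun i => sin (lam - r i)) m
  rw [hX] at T1
  rw [hX'] at T2
  have hD := Dd_NL l r (K1 P) f1
  have h1 : DdA ax (K1 P) = fun f => K1 P f + bb / sin lam * J0 P f := funext fun f => Dd_K1 P f
  have h2 : f1 ax ≠ some ax := by rw [hf1, emb_ext1_ax]; simp [ax, ax']
  rw [DdA, if_neg h2, hf1, kil_ext1, ← hf1, ← hf0, h1, NL_add, NL_smul] at hD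
  have h3 : NL l (fun i => r i + lam) (fun i => sin (lam - r i)) (J0 P) f1 =
      NL l (fun i => r i + lam) (fun i => sin (lam - r i)) (J0 P) (f0.ctl ax) := by
    have h4 : J0 P = fun g => J0 P (g.kil ax') := funext fun g => (J0_kil P g).symm
    rw [h4, NL_kil, NL_kil, hf1, kil'_ext1, hf0, RS.kil_ctl_comm (by simp [ax, ax'])]
    rw [RS.kil_of_emp (emb_ext0_ax' m)]
  rw [h3] at hD
  have h5 : NL l (fun i => r i + 2 * lam) (fun i => sin (lam + r i)) (E0 P) f0 =
      NL l (fun i => r i + 2 * lam) (fun i => sin (lam + r i)) (J0 P) f0 + (- (bb / sin lam)) *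
        NL l (fun i => r i + 2 * lam) (fun i => sin (lam + r i)) (K1 P) (f0.ctl ax') := by
    have h6 : E0 P = fun f => J0 P f + (- (bb / sin lam)) * K1 P (f.ctl ax') := funext fun f => E0_eq P f
    rw [h6, NL_add, NL_smul, NL_ctl]
  have h7 := left_row P l hl hn r f0
  have h8 := right_row P l hl hn r f0 (emb_ext0_ax m)
  rw [if_pos (show f0 ax = some ax from emb_ext0_ax m), one_mul,
    chT_ext0 l (ax :: ax' :: l.map BEX.lb) (fun i => by simp [ax, ax', BEX.lb])] at h7
  rw [chT_ext0 l (ax' :: l.map BEX.lb) (fun i => by simp [ax', BEX.lb])] at h8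
  rw [T1, T2, ← h7, ← h8, h5]
  linear_combination hD

theorem Ome_congr {l : List ι} {α β : ι → ℂ} (h : ∀ i ∈ l, α i = β i) : Ome l α = Ome l β := by
  funext m
  unfold Ome
  split_ifs with h1
  · congr 1
    refine List.map_congr_left fun i hi => ?_
    rw [h i hi]
  · rfl

end generic

theorem rap_lns {L l : ℕ} {α : Lb L l → ℂ} {U : Fin L → ℂ} (h : ∀ i, α (Sum.inl i) = U i) :
    ∀ x ∈ lns L l, α x = rap U x := by
  intro x hx
  obtain ⟨i, _, rfl⟩ := List.mem_map.1 hx
  exact h i

/-- the covector identity (**) -/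
theorem star_star (L l : ℕ) : StarStar L l := by
  intro U u m hm
  have h := star_generic (lns L l) (lns_nodup L l) (rap U) u m
  have e1 : Ome (lns L l) (fun i => sin (lam + (u - rap U i))) = Os U (u + lam) := by
    rw [Ome_congr (rap_lns (l := l) (U := fun i => sin (u + lam - U i))
      (fun i => by show sin (lam + (u - U i)) = sin (u + lam - U i); congr 1; ring))]
    funext m
    exact Ome_lns _ m
  have e2 : Ome (lns L l) (fun i => sin (lam - (u - rap U i))) = (-1 : ℂ) ^ (L + l) • Os U (u - lam) := by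
    have e3 : (fun i => sin (lam - (u - rap (l := l) U i))) = fun i => - sin (u - lam - rap (l := l) U i) := by
      funext i
      rw [← sin_neg]
      congr 1
      ring
    rw [e3]
    funext m
    rw [Ome_neg (lns L l) (lns_nodup L l), Fintype.card_sum, Fintype.card_fin, Fintype.card_fin, Pi.smul_apply,
      smul_eq_mul]
    congr 1
    rw [Ome_congr (rap_lns (l := l) (U := fun i => sin (u - lam - U i)) (fun i => rfl))]
    exact Ome_lns _ m
  have e4 : Ome (lns L l) (fun i => - sin (3 * lam + (u - rap U i))) m = (-1) ^ (L + l) * Os U (u + 3 * lam) m := by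
    rw [Ome_neg (lns L l) (lns_nodup L l), Fintype.card_sum, Fintype.card_fin, Fintype.card_fin]
    congr 1
    rw [Ome_congr (rap_lns (l := l) (U := fun i => sin (u + 3 * lam - U i))
      (fun i => by show sin (3 * lam + (u - U i)) = sin (u + 3 * lam - U i); congr 1; ring))]
    exact Ome_lns _ m
  have e5 : Ome (lns L l) (fun i => sin ((u - rap U i) - 3 * lam)) m = Os U (u - 3 * lam) m := by
    rw [Ome_congr (rap_lns (l := l) (U := fun i => sin (u - 3 * lam - U i))
      (fun i => by show sin ((u - U i) - 3 * lam) = sin (u - 3 * lam - U i); congr 1; ring))]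
    exact Ome_lns _ m
  rw [e1, e2, e4, e5, Tt_smul, Pi.smul_apply, smul_eq_mul] at h
  have p1 := lns_prod (l := l) (fun x => sin (2 * lam - (u - x))) U
  have p2 := lns_prod (l := l) (fun x => sin (2 * lam + (u - x))) U
  have p3 := lns_prod (l := l) (fun x => sin (-(u - x)) * sin (lam - (u - x))) U
  have p4 := lns_prod (l := l) (fun x => sin (u - x) * sin (lam + (u - x))) U
  rw [p1, p2, p3, p4] at h
  have q1 : ∏ i, (sin (-(u - U i)) * sin (lam - (u - U i))) =
      (-1) ^ L * ((∏ i, sin (u - U i)) * ∏ i, sin (lam - (u - U i))) := by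
    rw [← prod_mul_distrib]
    have : ∀ i, sin (-(u - U i)) * sin (lam - (u - U i)) = (-1) * (sin (u - U i) * sin (lam - (u - U i))) := by
      intro i; rw [sin_neg]; ring
    simp only [this]
    rw [prod_mul_distrib, prod_const, card_univ, Fintype.card_fin]
  rw [q1, prod_mul_distrib] at h
  unfold Tf
  rw [prod_mul_distrib, prod_mul_distrib]
  have s1 : ((-1 : ℂ)) ^ L * (-1) ^ (L + l) = (-1) ^ l := by
    rw [pow_add, ← mul_assoc, ← pow_add, ← two_mul, pow_mul]; simp
  have s2 : ((-1 : ℂ)) ^ l * (-1) ^ l = 1 := by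
    rw [← pow_add, ← two_mul, pow_mul]; simp
  set A := ∏ i, sin (2 * lam - (u - U i))
  set B := ∏ i, sin (2 * lam + (u - U i))
  set C := ∏ i, sin (u - U i)
  set D := ∏ i, sin (lam - (u - U i))
  set E := ∏ i, sin (lam + (u - U i))
  linear_combination h + A * C * D * Os U (u + 3 * lam) m * s1 + C * B * E * Os U (u - 3 * lam) m * s2

end Pool.Agent.CYL
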