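import Mathlib
import Pool.Agent.CYG.Def
import Pool.Agent.CYL.A.ComEmb

/-!
# CYL, part A, T-Q: Laurent polynomials in `exp (i u)`
-/

namespace Pool.Agent.CYL.Tq

open Complex Polynomial Pool.Agent.BEX

/-- `f u` is a Laurent polynomial in `exp (i u)` with exponents between `-D` and `D` -/
def LP (D : ℕ) (f : ℂ → ℂ) : Prop :=
  ∃ P : ℂ[X], P.natDegree ≤ 2 * D ∧ ∀ u, exp (I * u) ^ D * f u = P.eval (exp (I * u))

theorem LP.mono {D D' : ℕ} (h : D ≤ D') {f : ℂ → ℂ} (hf : LP D f) : LP D' f := by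
  obtain ⟨P, hP, h1⟩ := hf
  obtain ⟨k, rfl⟩ := Nat.exists_eq_add_of_le h
  refine ⟨X ^ k * P, ?_, fun u => ?_⟩
  · refine natDegree_mul_le.trans ?_
    rw [natDegree_X_pow]
    omega
  · rw [eval_mul, eval_pow, eval_X, ← h1, pow_add]
    ring

theorem LP.add {D : ℕ} {f g : ℂ → ℂ} (hf : LP D f) (hg : LP D g) : LP D (fun u => f u + g u) := by
  obtain ⟨P, hP, h1⟩ := hf
  obtain ⟨Q, hQ, h2⟩ := hg
  refine ⟨P + Q, (natDegree_add_le _ _).trans (max_le hP hQ), fun u => ?_⟩
  rw [eval_add, ← h1, ← h2]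
  ring

theorem LP.mul {D E : ℕ} {f g : ℂ → ℂ} (hf : LP D f) (hg : LP E g) : LP (D + E) (fun u => f u * g u) := by
  obtain ⟨P, hP, h1⟩ := hf
  obtain ⟨Q, hQ, h2⟩ := hg
  refine ⟨P * Q, natDegree_mul_le.trans (by omega), fun u => ?_⟩
  rw [eval_mul, ← h1, ← h2, pow_add]
  ring

theorem LP_const (c : ℂ) : LP 0 (fun _ => c) := ⟨C c, by simp, fun u => by simp⟩

theorem LP.const_mul {D : ℕ} {f : ℂ → ℂ} (c : ℂ) (hf : LP D f) : LP D (fun u => c * f u) := by
  have h := (LP_const c).mul hf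
  rwa [zero_add] at h

theorem LP.neg {D : ℕ} {f : ℂ → ℂ} (hf : LP D f) : LP D (fun u => -f u) := by
  have h := hf.const_mul (-1)
  simpa using h

theorem LP.sub {D : ℕ} {f g : ℂ → ℂ} (hf : LP D f) (hg : LP D g) : LP D (fun u => f u - g u) := by
  have h := hf.add hg.neg
  simpa [sub_eq_add_neg] using h

theorem LP.shift {D : ℕ} {f : ℂ → ℂ} (hf : LP D f) (a : ℂ) : LP D (fun u => f (u + a)) := by
  obtain ⟨P, hP, h1⟩ := hf
  refine ⟨C (exp (I * a) ^ D)⁻¹ * P.comp (C (exp (I * a)) * X), ?_, fun u => ?_⟩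
  · refine (natDegree_C_mul_le _ _).trans ?_
    rw [natDegree_comp, natDegree_C_mul_X _ (exp_ne_zero _), mul_one]
    exact hP
  · rw [eval_mul, eval_C, eval_comp, eval_mul, eval_C, eval_X, ← exp_add, ← mul_add, add_comm a u, ← h1, mul_add, exp_add,
      mul_pow]
    have h0 : exp (I * a) ^ D ≠ 0 := pow_ne_zero _ (exp_ne_zero _)
    field_simp

theorem LP.sum {ι : Type*} (s : Finset ι) {D : ℕ} {f : ι → ℂ → ℂ} (hf : ∀ i ∈ s, LP D (f i)) :
    LP D (fun u => ∑ i ∈ s, f i u) := by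
  classical
  induction s using Finset.induction_on with
  | empty => simpa using (LP_const 0).mono (Nat.zero_le D)
  | insert a s ha ih =>
    simp only [Finset.sum_insert ha]
    exact (hf a (Finset.mem_insert_self a s)).add (ih fun i hi => hf i (Finset.mem_insert_of_mem hi))

theorem LP.prod {ι : Type*} (s : Finset ι) {d : ι → ℕ} {f : ι → ℂ → ℂ} (hf : ∀ i ∈ s, LP (d i) (f i)) :
    LP (∑ i ∈ s, d i) (fun u => ∏ i ∈ s, f i u) := by
  classical
  induction s using Finset.induction_on with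
  | empty => simpa using LP_const 1
  | insert a s ha ih =>
    simp only [Finset.prod_insert ha, Finset.sum_insert ha]
    exact (hf a (Finset.mem_insert_self a s)).mul (ih fun i hi => hf i (Finset.mem_insert_of_mem hi))

theorem LP_sin_add (a : ℂ) : LP 1 (fun u => sin (a + u)) := by
  refine ⟨C (exp (I * a) / (2 * I)) * X ^ 2 - C (exp (-(I * a)) / (2 * I)), ?_, fun u => ?_⟩
  · refine (natDegree_sub_le _ _).trans (max_le ?_ ?_)
    · exact (natDegree_C_mul_X_pow_le _ _).trans (by norm_num)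
    · rw [natDegree_C]
      exact Nat.zero_le _
  · simp only []
    rw [eval_sub, eval_mul, eval_pow, eval_X, eval_C, eval_C, pow_one,
      show sin (a + u) = (exp (-(a + u) * I) - exp ((a + u) * I)) * I / 2 from rfl]
    have e1 : exp (-(a + u) * I) = exp (-(I * a)) * exp (-(I * u)) := by
      rw [← exp_add]
      congr 1
      ring
    have e2 : exp ((a + u) * I) = exp (I * a) * exp (I * u) := by
      rw [← exp_add]
      congr 1
      ring
    have e3 : exp (I * u) * exp (-(I * u)) = 1 := by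
      rw [← exp_add, add_neg_cancel, exp_zero]
    have e4 : (2 : ℂ) * I ≠ 0 := mul_ne_zero two_ne_zero I_ne_zero
    rw [e1, e2]
    have e5 : I * I = -1 := I_mul_I
    field_simp
    linear_combination (exp (-(I * a)) * exp (I * u) * exp (-(I * u)) - exp (I * a) * exp (I * u) ^ 2) * e5 -
      exp (-(I * a)) * e3

theorem LP_sin_sub (a : ℂ) : LP 1 (fun u => sin (a - u)) := by
  have h := (LP_sin_add (-a)).neg
  have e : (fun u => -sin (-a + u)) = fun u => sin (a - u) := by
    funext u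
    rw [← sin_neg]
    congr 1
    ring
  rwa [e] at h

end Pool.Agent.CYL.Tq
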